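import Mathlib
import Pool.Agent.H50.HM2

namespace Pool.Agent.Results.MP_5e02e7_ag.Gap

open Filter Topology

/-- Tensors in `(ℂ^n)^{⊗ d}`, given by their coordinates. -/
abbrev V (d n : ℕ) := (Fin d → Fin n) → ℂ

/-- The group `GL_n(ℂ)^d`. -/
abbrev G (d n : ℕ) := Fin d → GL (Fin n) ℂ

/-- The action `(g_1 ⊗ ⋯ ⊗ g_d) T`. -/
noncomputable def act {d n : ℕ} (g : G d n) (T : V d n) : V d n :=
  fun i => ∑ j, (∏ k, (g k : Matrix (Fin n) (Fin n) ℂ) (i k) (j k)) * T j

/-- The unit tensor `I_r`. -/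
noncomputable def unit (d n r : ℕ) : V d n :=
  ∑ a : Fin n with a.val < r, Pi.single (fun _ => a) 1

noncomputable def borderSubrank {d n : ℕ} (T : V d n) : ℕ :=
  sSup {r | r ≤ n ∧ unit d n r ∈ closure (Set.range fun g : G d n => act g T)}

/-- A homomorphism `ℂˣ → G` is algebraic: all matrix entries are Laurent polynomials. -/
def IsOPS {d n : ℕ} (lam : ℂˣ →* G d n) : Prop :=
  ∀ k i j, ∃ c : ℤ →₀ ℂ, ∀ t : ℂˣ,
    (lam t k : Matrix (Fin n) (Fin n) ℂ) i j = c.sum fun e a => a * (t : ℂ) ^ e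

/-- `lam(t) T → S` as `t → 0`. -/
def Lim {d n : ℕ} (lam : ℂˣ →* G d n) (T S : V d n) : Prop :=
  Tendsto (fun t : ℂˣ => act (lam t) T) (comap (fun t : ℂˣ => (t : ℂ)) (𝓝 0)) (𝓝 S)

/-- Hilbert-Mumford subrank, limit equal to `I_r`. -/
noncomputable def hmSubrank {d n : ℕ} (T : V d n) : ℕ :=
  sSup {r | r ≤ n ∧ ∃ lam, IsOPS lam ∧ Lim lam T (unit d n r)}

/-- Hilbert-Mumford subrank, limit anywhere in the orbit of `I_r`. -/
noncomputable def hmSubrankOrbit {d n : ℕ} (T : V d n) : ℕ :=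
  sSup {r | r ≤ n ∧ ∃ lam, IsOPS lam ∧ ∃ g : G d n, Lim lam T (act g (unit d n r))}

open H50.HM in
theorem result : ∃ T : V 4 3,
    hmSubrank T < borderSubrank T ∧ hmSubrankOrbit T < borderSubrank T := by
  let M : G 4 3 → Fin 4 → Matrix (Fin 3) (Fin 3) ℂ := fun g k => g k
  have hM : ∀ g h, M (g * h) = M g * M h := fun g h => rfl
  have hM1 : M 1 = 1 := rfl
  have ha : ∀ g T, act g T = H50.HM.act (M g) T := fun g T => rfl
  have hb : 2 ≤ borderSubrank (d := 4) (n := 3) T0 := by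
    refine le_csSup ⟨3, fun r hr => hr.1⟩ ⟨by norm_num, ?_⟩
    refine mem_closure_of_tendsto (b := 𝓝[≠] (0 : ℂ)) (tab_lim.mono_left nhdsWithin_le_nhds) ?_
    filter_upwards [self_mem_nhdsWithin] with t ht
    exact ⟨fun k => Matrix.GeneralLinearGroup.mkOfDetNeZero _ (G_det ht k), G_act ht⟩
  have key : ∀ r ≤ 3, ∀ lam, IsOPS lam → ∀ g : G 4 3, Lim lam T0 (act g (unit 4 3 r)) → r ≤ 1 := by
    intro r hr lam hl g h
    have h1 := ((act_cont (M g⁻¹)).tendsto _).comp h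
    rw [ha, ← act_mul, ← hM, inv_mul_cancel, hM1, act_one] at h1
    have h2 : Tendsto (fun t => H50.HM.act (M (g⁻¹ * lam t * g) * M g⁻¹) T0) l0 (𝓝 (unit 4 3 r)) :=
      h1.congr fun t => by
        rw [← hM, mul_inv_cancel_right, hM, act_mul]; rfl
    by_contra hc
    obtain rfl | rfl : r = 2 ∨ r = 3 := by omega
    · refine not2 (fun t => M (g⁻¹ * lam t * g)) (by simp [hM1]) (fun s t => ?_) ?_ _ h2
      · rw [← hM, map_mul]; congr 1; group
      · refine IsL.mul (F := fun t => M g⁻¹ 3 * M (lam t) 3) (G := fun _ => M g 3)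
          (IsL.mul (F := fun _ => M g⁻¹ 3) (G := fun t => M (lam t) 3) (fun i j => LP_const _)
            fun i j => ?_) fun i j => LP_const _
        obtain ⟨c, hc⟩ := hl 3 i j
        have : (fun t => M (lam t) 3 i j) = ∑ e ∈ c.support, c e • chi e := by
          funext t
          simp only [M, hc t, Finsupp.sum, Finset.sum_apply, Pi.smul_apply, smul_eq_mul, chi]
        rw [this]
        exact Submodule.sum_mem _ fun e _ => Submodule.smul_mem _ _ (Submodule.subset_span ⟨e, rfl⟩)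
    · exact not3 _ _ h2
  refine ⟨T0, lt_of_le_of_lt (csSup_le' ?_) hb, lt_of_le_of_lt (csSup_le' ?_) hb⟩
  · rintro r ⟨hr, lam, hl, h⟩
    exact key r hr lam hl 1 (by rwa [ha, hM1, act_one])
  · rintro r ⟨hr, lam, hl, g, h⟩
    exact key r hr lam hl g h

end Pool.Agent.Results.MP_5e02e7_ag.Gap
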